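import Mathlib
import Pool.Agent.Lib.helper17.MCFin

set_option autoImplicit false

namespace Pool.Agent.Results.MP_337eac_co.Exists

/-- The class is closed under isomorphism and induced subgraphs: the graph induced along any
injection of vertex sets stays in the class. -/
def Hereditary (C : ∀ n, Set (SimpleGraph (Fin n))) : Prop :=
  ∀ m n (f : Fin m ↪ Fin n), ∀ G ∈ C n, G.comap f ∈ C m

/-- The speed: number of labelled graphs of the class on `n` vertices. -/
noncomputable def Sp (C : ∀ n, Set (SimpleGraph (Fin n))) (n : ℕ) : ℤ := (C n).ncard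

/-- MC-finite integer sequences. -/
def MCFinite (s : ℕ → ℤ) : Prop :=
  ∀ m : ℕ, 1 ≤ m → ∃ r p : ℕ, 1 ≤ r ∧ 1 ≤ p ∧ ∃ α : Fin p → ℤ, ∀ n ≥ r,
    s (n + p) ≡ ∑ i : Fin p, α i * s (n + i) [ZMOD m]

open Finset Equiv H17MCFin

def cg (k : ℕ) : SimpleGraph (ZMod k) := SimpleGraph.fromRel fun x y => y = x + 1

theorem adj {k : ℕ} (h : 4 ≤ k) (x y : ZMod (k + 1)) :
    (cg (k + 1)).Adj x y ↔ y = x + 1 ∨ x = y + 1 := by
  have : Fact (1 < k + 1) := ⟨by omega⟩
  refine (SimpleGraph.fromRel_adj _ _ _).trans (and_iff_right_of_imp ?_)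
  rintro (rfl | rfl) <;> simp

def T (n : ℕ) : Set (SimpleGraph (Fin n)) :=
  {A | ∃ k, 4 ≤ k ∧ ∃ e : Fin n ≃ (Σ i : ZMod (k + 1), Fin (2 ^ i.val)),
    A = (cg (k + 1)).comap fun x => (e x).1}

theorem anti {m n : ℕ} (f : Fin m → Fin n) (A) (hA : A ∈ T n) (hB : A.comap f ∈ T m) :
    m = n := by
  obtain ⟨k', hk', e', rfl⟩ := hA
  obtain ⟨k, hk, e, h⟩ := hB
  let x : ℕ → Fin m := fun i => e.symm ⟨i, 0⟩
  obtain ⟨φ, g, g0⟩ : ∃ φ : ℕ → ZMod (k' + 1), (∀ i j : ℕ, φ j = φ i + 1 ∨ φ i = φ j + 1 ↔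
      (j : ZMod (k + 1)) = i + 1 ∨ (i : ZMod (k + 1)) = j + 1) ∧ φ (k + 1) = φ 0 := by
    refine ⟨fun i => (e' (f (x i))).1, fun i j => ?_, ?_⟩
    · simpa [x, adj, hk, hk'] using congrArg (·.Adj (x i) (x j)) h
    · simp only [show x (k + 1) = x 0 from congrArg (fun i => e.symm ⟨i, 0⟩) (by simp)]
  have n0 : ∀ j : ℕ, 0 < j → j ≤ k → (j : ZMod (k + 1)) ≠ 0 := fun j a b c => by
    have := Nat.le_of_dvd a ((ZMod.natCast_eq_zero_iff _ _).mp c)
    omega
  obtain ⟨ε, e1, e2⟩ : ∃ ε : ZMod (k' + 1), (ε = 1 ∨ ε = -1) ∧ φ 1 = φ 0 + ε := by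
    rcases (g 0 1).mpr (by simp) with h | h
    exacts [⟨1, by simp, h⟩, ⟨-1, by simp, by simp [h]⟩]
  have x1 : ∀ i, φ (i + 1) = φ i + ε := fun i => by
    induction i with
    | zero => exact e2
    | succ i ih =>
      by_contra c
      have a : φ (i + 2) = φ i := by
        rcases (g (i + 1) (i + 2)).mpr (Or.inl (by push_cast; ring)) with h | h <;>
          rcases e1 with rfl | rfl
        · exact absurd h c
        · rw [h, ih]; ring
        · exact add_right_cancel (h.symm.trans ih)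
        · exact absurd (by rw [h]; ring) c
      have b := (g (i + 2) (i + 3)).mpr (Or.inl (by push_cast; ring))
      rw [a, g] at b
      push_cast at b
      rcases b with b | b
      · exact n0 2 (by omega) (by omega) (by push_cast; linear_combination b)
      · exact n0 4 (by omega) (by omega) (by push_cast; linear_combination -b)
  have x2 : ∀ i : ℕ, φ i = φ 0 + i * ε := fun i => by
    induction i with
    | zero => simp
    | succ i ih => rw [x1, ih]; push_cast; ring
  have a : k' + 1 ∣ k + 1 := by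
    have := x2 (k + 1)
    rw [g0, left_eq_add] at this
    rw [← ZMod.natCast_eq_zero_iff]
    rcases e1 with rfl | rfl
    · rwa [mul_one] at this
    · rwa [mul_neg_one, neg_eq_zero] at this
  have a' := Nat.le_of_dvd (by omega) a
  have b := (g 0 1).mpr (by simp)
  rw [show φ 0 = φ (k' + 1) by simp [x2 (k' + 1)], g] at b
  have : k' = k := by
    by_contra c
    rcases b with b | b
    · exact n0 (k' + 1) (by omega) (by omega) (by simpa using b)
    · obtain ⟨j, rfl⟩ := Nat.exists_eq_add_of_le hk'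
      exact n0 (j + 3) (by omega) (by omega) (by push_cast at b ⊢; linear_combination b)
  have := size e
  have := size e'
  subst_vars
  omega

theorem odd (k : ℕ) (hk : 4 ≤ k) : Odd (T (2 ^ (k + 1) - 1)).ncard := by
  have h1 := Nat.one_le_two_pow (n := k + 1)
  obtain ⟨e⟩ : Nonempty (Fin (2 ^ (k + 1) - 1) ≃ (Σ i : ZMod (k + 1), Fin (2 ^ i.val))) := by
    refine ⟨Fintype.equivOfCardEq ?_⟩
    have := size (Fintype.equivFin (Σ i : ZMod (k + 1), Fin (2 ^ i.val))).symm
    rw [Fintype.card_fin]; omega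
  generalize hn : 2 ^ (k + 1) - 1 = n at *
  let _ : MulAction (Perm (Fin n)) (SimpleGraph (Fin n)) :=
    { smul := fun g A => A.comap g.symm, one_smul := fun _ => rfl, mul_smul := fun _ _ _ => rfl }
  have a : T n = MulAction.orbit (Perm (Fin n)) ((cg (k + 1)).comap fun x => (e x).1) := by
    ext A
    refine ⟨fun ⟨k', _, e', h⟩ => ?_, fun ⟨g, h⟩ => ⟨k, hk, g.symm.trans e, h.symm⟩⟩
    obtain rfl : k' = k := by
      have := (size e').symm.trans (size e)
      simpa using this
    refine ⟨(e'.trans e.symm).symm, h ▸ ?_⟩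
    show ((cg (k' + 1)).comap fun x => (e x).1).comap (e'.trans e.symm) = _
    ext; simp
  let H : Subgroup (Perm (Fin n)) :=
    { carrier := {g | (fun x => (e x).1) ∘ g = fun x => (e x).1}
      mul_mem' := fun {a b} h h' => funext fun x => (congrFun h (b x)).trans (congrFun h' x)
      one_mem' := rfl
      inv_mem' := fun {a} h => funext fun x => by simpa using (congrFun h (a⁻¹ x)).symm }
  have b : H ≤ MulAction.stabilizer (Perm (Fin n)) ((cg (k + 1)).comap fun x => (e x).1) :=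
    fun g h => congrArg (fun c => (cg (k + 1)).comap c) (H.inv_mem h)
  have c : Nat.card H = ∏ i ∈ range (k + 1), (2 ^ i).factorial := by
    refine (Nat.card_eq_fintype_card.trans (DomMulAct.stabilizer_card fun x => (e x).1)).trans
      ((prod_congr rfl fun i _ => ?_).trans
        (Fin.prod_univ_eq_prod_range (fun i => Nat.factorial (2 ^ i)) (k + 1)))
    rw [Fintype.card_congr ((e.subtypeEquiv fun _ => Iff.rfl).trans (sigmaSubtype i)),
      Fintype.card_fin]
    rfl
  obtain ⟨m, m1, m2⟩ := odd_mult (k + 1)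
  have d := H.card_mul_index
  rw [hn] at m2
  rw [Nat.card_perm, Nat.card_fin, m2, c, mul_comm, mul_left_inj' (by positivity)] at d
  rw [a, ← MulAction.index_stabilizer]
  exact m1.of_dvd_nat (d ▸ Subgroup.index_dvd_of_le b)

theorem result : ∃ C : ∀ n, Set (SimpleGraph (Fin n)), Hereditary C ∧ ¬ MCFinite (Sp C) := by
  by_contra h0
  have h : ∀ C, Hereditary C →
      ∃ a P, 0 < P ∧ ∀ t ≥ a, ((C (t + P)).ncard : ℤ) ≡ (C t).ncard [ZMOD 2] := fun C h => by
    obtain ⟨r, p, _, _, α, h⟩ := not_not.mp (fun g => h0 ⟨C, h, g⟩) 2 (by norm_num)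
    exact per _ r p α h
  let C : ∀ n, Set (SimpleGraph (Fin n)) := fun m =>
    {B | ∃ n, ∃ f : Fin m ↪ Fin n, ∃ A ∈ T n, B = A.comap f}
  have c1 : Hereditary C := by
    rintro m n f _ ⟨n', g, A, a, rfl⟩
    exact ⟨n', f.trans g, A, a, rfl⟩
  have c0 : ∀ n (f : Fin n ↪ Fin n), ∀ A ∈ T n, A.comap f ∈ T n := by
    rintro n f _ ⟨k, hk, e, rfl⟩
    exact ⟨k, hk, (Equiv.ofBijective f (Finite.injective_iff_bijective.mp f.2)).trans e, rfl⟩
  have c2 : Hereditary fun n => C n \ T n := by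
    rintro m n f _ ⟨⟨n', g, A, a, rfl⟩, b⟩
    refine ⟨⟨n', f.trans g, A, a, rfl⟩, fun d => ?_⟩
    obtain rfl := anti (f.trans g) A a d
    obtain rfl : n = m := by
      simpa using (Fintype.card_le_of_embedding g).antisymm (Fintype.card_le_of_embedding f)
    exact b (c0 _ g A a)
  obtain ⟨a, P, p1, p2⟩ := h C c1
  obtain ⟨b, Q, q1, q2⟩ := h _ c2
  have it : ∀ (s : ℕ → ℤ) a P, (∀ t ≥ a, s (t + P) ≡ s t [ZMOD 2]) → ∀ j, ∀ t ≥ a,
      s (t + j * P) ≡ s t [ZMOD 2] := fun s a P h j t ht => by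
    induction j with
    | zero => simp
    | succ j ih => rw [Nat.succ_mul, ← add_assoc]; exact (h _ (by omega)).trans ih
  have e : ∀ n, (C n).ncard = (C n \ T n).ncard + (T n).ncard := fun n =>
    (Set.ncard_sdiff_add_ncard_of_subset (show T n ⊆ C n from
      fun A a => ⟨n, .refl _, A, a, rfl⟩)).symm
  have k := Nat.lt_two_pow_self (n := a + b + P * Q + 4 + 1)
  have o := odd (a + b + P * Q + 4) (by omega)
  have z : T (2 ^ (a + b + P * Q + 4 + 1) - 1 + P * Q) = ∅ := by
    refine Set.eq_empty_of_forall_notMem fun A ⟨j, _, e, _⟩ => ?_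
    have := size e
    have : 0 < P * Q := by positivity
    have a1 : 2 ^ (a + b + P * Q + 4 + 1) < 2 ^ (j + 1) := by omega
    have a2 : 2 ^ (j + 1) < 2 ^ (a + b + P * Q + 4 + 1 + 1) := by omega
    rw [Nat.pow_lt_pow_iff_right (by norm_num)] at a1 a2
    omega
  generalize 2 ^ (a + b + P * Q + 4 + 1) = N at *
  have u := it (fun n => (C n).ncard) a P p2 Q (N - 1) (by omega)
  have v := it (fun n => (C n \ T n).ncard) b Q q2 P (N - 1) (by omega)
  rw [mul_comm] at u
  simp only [e, z, Set.ncard_empty, Int.ModEq] at u v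
  rw [Nat.odd_iff] at o
  omega

end Pool.Agent.Results.MP_337eac_co.Exists
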